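import Pool.Agent.Q177.CR.Game

/-!
# A homogeneous game space with infinite cop number

The space is the product of the circles of lengths `1, 1/2, 1/4, …` with the supremum metric, a
compact abelian group with an invariant geodesic metric. In the supremum metric the players move
independently in all coordinates, so the robber can run away from cop number `i` in the circle
number `i`, for all `i < k` at the same time: on a circle one cop cannot come closer than a quarter
of the length to a robber who starts at the antipodal point.
-/

open Pool.Agent.Q177.CR

set_option autoImplicit false

namespace Pool.Agent.Results.MP_cb1e0a_co.CircleProducts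

/-- The negation of Q1: there is a homogeneous game space on which, for every `k`, `k` cops cannot
win. Precisely: the product of the circles of lengths `2^{-n}`, `n ≥ 0`, with the supremum metric is
a homogeneous game space, and for every `k` the robber has one strategy such that in EVERY play
against this strategy the distance between the robber and each of the `k` cops is at least a fixed
`η > 0` at all times. -/
theorem result :
    (∃ (X : Type) (_ : MetricSpace X), GameSpace X ∧ Homogeneous X ∧ ∀ k : ℕ, ¬ CopsCanWin X k) ∧
    GameSpace CircleProduct ∧ Homogeneous CircleProduct ∧
    ∀ k : ℕ, ¬ CopsCanWin CircleProduct k ∧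
      ∃ S : RobberStrategy CircleProduct k, ∃ η : ℝ, 0 < η ∧
        ∀ r c, IsPlay S r c → ∀ n i, η ≤ dist (r n) (c n i) :=
  ⟨⟨CircleProduct, inferInstance, gameSpace, homogeneous, not_copsCanWin⟩, gameSpace, homogeneous,
    fun k => ⟨not_copsCanWin k, strategy k, Ln k / 4, by have := Ln_pos k; linarith,
      robber_wins k⟩⟩

end Pool.Agent.Results.MP_cb1e0a_co.CircleProducts
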